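import Pool.Agent.Helper82.AH.Props
import Pool.Agent.Helper82.AH.Basic
import Pool.Agent.Helper10.RC.Homs

open scoped ENNReal NNReal InnerProductSpace ComplexOrder
open Filter Topology

attribute [-instance] CStarMatrix.instAlgebra CStarMatrix.instModule CStarMatrix.instSMul
  CStarMatrix.instMulAction CStarMatrix.instDistribMulAction

noncomputable section
namespace RC
universe u

namespace QI94

section
variable {X : Type} [TopologicalSpace X] {N : ℕ}

/-- multiplication with a scalar function -/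
def hs (h : C(X, ℝ)) (f : C(X, Mt N)) : C(X, Mt N) :=
  ⟨fun x => h x • f x, h.continuous.smul f.continuous⟩

theorem hs_apply (h : C(X, ℝ)) (f : C(X, Mt N)) (x : X) : hs h f x = h x • f x := rfl

end

variable {A : Type u} [CStarAlgebra A] (H : HCor A)

/-- elements of the corner -/
def Cor (f : C(H.X, Mt H.N)) : Prop := H.p * f * H.p = f

variable {H}

theorem Cor.left {f : C(H.X, Mt H.N)} (h : Cor H f) : H.p * f = f := by
  unfold Cor at h
  rw [← h, ← mul_assoc, ← mul_assoc, H.p_p]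

theorem Cor.right {f : C(H.X, Mt H.N)} (h : Cor H f) : f * H.p = f := by
  unfold Cor at h
  rw [← h, mul_assoc (H.p * f) H.p H.p, H.p_p]

theorem Cor.leftx {f : C(H.X, Mt H.N)} (h : Cor H f) (x : H.X) : H.p x * f x = f x :=
  congrArg (fun w => w x) h.left

theorem Cor.rightx {f : C(H.X, Mt H.N)} (h : Cor H f) (x : H.X) : f x * H.p x = f x :=
  congrArg (fun w => w x) h.right

theorem cor_p : Cor H H.p := by
  unfold Cor
  rw [H.p_p, H.p_p]

theorem cor_of {f : C(H.X, Mt H.N)} (h1 : ∀ x, H.p x * f x = f x) (h2 : ∀ x, f x * H.p x = f x) :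
    Cor H f := by
  unfold Cor
  ext1 x
  show H.p x * f x * H.p x = f x
  rw [h1, h2]

theorem Cor.add {f g : C(H.X, Mt H.N)} (hf : Cor H f) (hg : Cor H g) : Cor H (f + g) := by
  unfold Cor at *
  rw [mul_add, add_mul, hf, hg]

theorem Cor.hs {f : C(H.X, Mt H.N)} (hf : Cor H f) (h : C(H.X, ℝ)) : Cor H (hs h f) := by
  apply cor_of
  · intro x
    rw [hs_apply, mul_smul_comm, hf.leftx]
  · intro x
    rw [hs_apply, smul_mul_assoc, hf.rightx]

theorem cor_zero : Cor H (0 : C(H.X, Mt H.N)) := by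
  unfold Cor
  rw [mul_zero, zero_mul]

theorem cor_sum {ι : Type} (s : Finset ι) (F : ι → C(H.X, Mt H.N)) (h : ∀ i ∈ s, Cor H (F i)) :
    Cor H (∑ i ∈ s, F i) := by
  classical
  induction s using Finset.induction_on with
  | empty => rw [Finset.sum_empty]; exact cor_zero
  | insert i s hi ih =>
    rw [Finset.sum_insert hi]
    exact (h i (Finset.mem_insert_self _ _)).add (ih fun j hj => h j (Finset.mem_insert_of_mem hj))

theorem p_nonneg (x : H.X) : 0 ≤ H.p x := by
  have h1 := star_mul_self_nonneg (H.p x)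
  rw [(H.proj x).isSelfAdjoint.star_eq, (H.proj x).isIdempotentElem] at h1
  exact h1

variable [PartialOrder A] [StarOrderedRing A] (σ : QTrace A)

variable (H) in
/-- the quasitrace on the corner -/
def S (f : C(H.X, Mt H.N)) : ℝ := σ.τ Unit (one1 (H.ψ f))

theorem one1_mul (x y : A) : one1 (x * y) = one1 x * one1 y := map_mul (one1H (A := A)) x y

theorem one1_add (x y : A) : one1 (x + y) = one1 x + one1 y := map_add (one1H (A := A)) x y

theorem one1_star (x : A) : one1 (star x) = (one1 x).conjTranspose := map_star (one1H (A := A)) x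

theorem S_add {f g : C(H.X, Mt H.N)} (hf : Cor H f) (hg : Cor H g) (hf0 : ∀ x, 0 ≤ f x)
    (hg0 : ∀ x, 0 ≤ g x) (hc : f * g = g * f) : S H σ (f + g) = S H σ f + S H σ g := by
  unfold S
  rw [map_add, one1_add]
  apply σ.add Unit _ _ (one1_nonneg (H.psi_nonneg f hf0)) (one1_nonneg (H.psi_nonneg g hg0))
  rw [← one1_mul, ← one1_mul, ← H.psi_mul f g hf, ← H.psi_mul g f hg, hc]

theorem S_trace {w : C(H.X, Mt H.N)} (hw : Cor H w) : S H σ (w * star w) = S H σ (star w * w) := by
  unfold S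
  rw [H.psi_mul w (star w) hw, H.psi_mul' (star w) w hw, H.map_star', one1_mul, one1_mul, one1_star]
  exact σ.trace Unit Unit (one1 (H.ψ w))

theorem S_mono (hT : TauMonoP.{u}) {f g : C(H.X, Mt H.N)} (hf0 : ∀ x, 0 ≤ f x)
    (h : ∀ x, f x ≤ g x) : S H σ f ≤ S H σ g := by
  unfold S
  apply hT A σ Unit _ _ (one1_nonneg (H.psi_nonneg f hf0))
  have h1 := one1_nonneg (sub_nonneg.mpr (H.psi_mono f g h))
  have h2 : one1 (H.ψ g - H.ψ f) = one1 (H.ψ g) - one1 (H.ψ f) := map_sub (one1H (A := A)) _ _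
  rw [h2] at h1
  exact sub_nonneg.mp h1

theorem S_smul (c : ℝ) (hc : 0 ≤ c) {f : C(H.X, Mt H.N)} (hf0 : ∀ x, 0 ≤ f x) :
    S H σ (c • f) = c * S H σ f := by
  unfold S
  have h1 : H.ψ (c • f) = c • H.ψ f := by
    have e1 : c • f = (c : ℂ) • f := by
      ext1 x
      show c • f x = (c : ℂ) • f x
      exact (Complex.coe_smul c (f x)).symm
    rw [e1, map_smul]
    exact Complex.coe_smul c (H.ψ f)
  rw [h1]
  have h2 : one1 (c • H.ψ f) = c • one1 (H.ψ f) := rfl
  rw [h2]
  exact σ.smul Unit c _ hc (one1_nonneg (H.psi_nonneg f hf0))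

theorem S_zero : S H σ 0 = 0 := by
  have h1 := S_smul σ 0 le_rfl (f := (0 : C(H.X, Mt H.N))) (fun _ => le_rfl)
  have e : (0 : ℝ) • (0 : C(H.X, Mt H.N)) = 0 := by
    ext1 x
    show (0 : ℝ) • (0 : Mt H.N) = 0
    exact smul_zero _
  rw [e, zero_mul] at h1
  exact h1

theorem S_nonneg {f : C(H.X, Mt H.N)} (hf0 : ∀ x, 0 ≤ f x) : 0 ≤ S H σ f :=
  σ.nonneg Unit _ (one1_nonneg (H.psi_nonneg f hf0))

theorem S_p_le (hT : TauMonoP.{u}) : S H σ H.p ≤ 1 := by
  have h0 : 0 ≤ H.ψ H.p := H.psi_nonneg _ p_nonneg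
  have hproj : H.ψ H.p * H.ψ H.p = H.ψ H.p := by
    rw [← H.psi_mul H.p H.p cor_p, H.p_p]
  have hle : H.ψ H.p ≤ 1 := by
    have h1 : 0 ≤ star (1 - H.ψ H.p) * (1 - H.ψ H.p) := star_mul_self_nonneg _
    have h2 : star (1 - H.ψ H.p) * (1 - H.ψ H.p) = 1 - H.ψ H.p := by
      rw [star_sub, star_one, (IsSelfAdjoint.of_nonneg h0).star_eq]
      calc (1 - H.ψ H.p) * (1 - H.ψ H.p) = 1 - H.ψ H.p - H.ψ H.p + H.ψ H.p * H.ψ H.p := by
            noncomm_ring
        _ = 1 - H.ψ H.p := by rw [hproj]; noncomm_ring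
    rw [h2] at h1
    exact sub_nonneg.mp h1
  have h3 := hT A σ Unit (one1 (H.ψ H.p)) (one1 1) (one1_nonneg h0) (by
    have h1 := one1_nonneg (sub_nonneg.mpr hle)
    have h2 : one1 (1 - H.ψ H.p) = one1 1 - one1 (H.ψ H.p) := map_sub (one1H (A := A)) _ _
    rw [h2] at h1
    exact sub_nonneg.mp h1)
  have h4 : (one1 1 : CStarMatrix Unit Unit A) = 1 := map_one (one1H (A := A))
  rw [h4, σ.one] at h3
  exact h3

theorem S_sum {ι : Type} (s : Finset ι) (F : ι → C(H.X, Mt H.N)) (h : ∀ i ∈ s, Cor H (F i))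
    (h0 : ∀ i ∈ s, ∀ x, 0 ≤ F i x) (hc : ∀ i ∈ s, ∀ j ∈ s, F i * F j = F j * F i) :
    S H σ (∑ i ∈ s, F i) = ∑ i ∈ s, S H σ (F i) := by
  classical
  induction s using Finset.induction_on with
  | empty => rw [Finset.sum_empty, Finset.sum_empty]; exact S_zero σ
  | insert i s hi ih =>
    rw [Finset.sum_insert hi, Finset.sum_insert hi, S_add σ (h i (Finset.mem_insert_self _ _))
      (cor_sum s F fun j hj => h j (Finset.mem_insert_of_mem hj)) (h0 i (Finset.mem_insert_self _ _))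
      (by
        intro x
        rw [ContinuousMap.sum_apply]
        exact Finset.sum_nonneg fun j hj => h0 j (Finset.mem_insert_of_mem hj) x)
      (by
        rw [Finset.mul_sum, Finset.sum_mul]
        apply Finset.sum_congr rfl
        intro j hj
        exact hc i (Finset.mem_insert_self _ _) j (Finset.mem_insert_of_mem hj)),
      ih (fun j hj => h j (Finset.mem_insert_of_mem hj))
        (fun j hj => h0 j (Finset.mem_insert_of_mem hj))
        (fun j hj k hk => hc j (Finset.mem_insert_of_mem hj) k (Finset.mem_insert_of_mem hk))]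

/-! ### The trace of matrices -/

theorem trM_add {N : ℕ} (a b : Mt N) : trM (a + b) = trM a + trM b := by
  unfold trM
  have : (a + b).mat = a.mat + b.mat := rfl
  rw [this, Matrix.trace_add, Complex.add_re]

theorem trM_zero {N : ℕ} : trM (0 : Mt N) = 0 := by
  unfold trM
  have : (0 : Mt N).mat = 0 := rfl
  rw [this, Matrix.trace_zero, Complex.zero_re]

theorem trM_smul {N : ℕ} (c : ℝ) (a : Mt N) : trM (c • a) = c * trM a := by
  unfold trM
  have : (c • a).mat = (c : ℂ) • a.mat := by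
    have h1 : c • a = (c : ℂ) • a := (Complex.coe_smul c a).symm
    rw [h1]
    rfl
  rw [this, Matrix.trace_smul, smul_eq_mul, Complex.re_ofReal_mul]

theorem trM_comm {N : ℕ} (a b : Mt N) : trM (a * b) = trM (b * a) := by
  unfold trM
  have h1 : (a * b).mat = a.mat * b.mat := rfl
  have h2 : (b * a).mat = b.mat * a.mat := rfl
  rw [h1, h2, Matrix.trace_mul_comm]

theorem trM_sum {N : ℕ} {ι : Type} (s : Finset ι) (F : ι → Mt N) :
    trM (∑ i ∈ s, F i) = ∑ i ∈ s, trM (F i) := by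
  classical
  induction s using Finset.induction_on with
  | empty => rw [Finset.sum_empty, Finset.sum_empty]; exact trM_zero
  | insert i s hi ih => rw [Finset.sum_insert hi, Finset.sum_insert hi, trM_add, ih]

/-! ### Local statement -/

theorem local1 (hT : TauMonoP.{u}) (hF : FrameP) (f : C(H.X, Mt H.N)) (hf : Cor H f)
    (hf0 : ∀ x, 0 ≤ f x) (x₀ : H.X) (ε : ℝ) (hε : 0 < ε) :
    ∃ m : ℕ, trM (H.p x₀) = m ∧ ∃ U ∈ 𝓝 x₀, (m = 0 → ∀ x ∈ U, H.p x = 0) ∧
      ∀ h : C(H.X, ℝ), (∀ x, 0 ≤ h x) → (∀ x, x ∉ U → h x = 0) →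
        |(m : ℝ) * S H σ (hs h f) - trM (f x₀) * S H σ (hs h H.p)| ≤
          m * (ε * S H σ (hs h H.p)) := by
  classical
  obtain ⟨m, e, lam, hlam, hcor, hfx, U, hU, hUp⟩ := hF H.D H.N H.X H.cpt H.p f H.proj hf hf0 x₀
  set f0 : C(H.X, Mt H.N) := ∑ i, lam i • e i i with hf0def
  have hf0x : ∀ x, f0 x = ∑ i, lam i • e i i x := by
    intro x
    rw [hf0def, ContinuousMap.sum_apply]
    rfl
  have hf0x0 : f x₀ = f0 x₀ := by rw [hf0x, hfx]
  have hU' : {x | ‖f x - f0 x‖ ≤ ε} ∈ 𝓝 x₀ := by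
    have hc : ContinuousAt (fun x => ‖f x - f0 x‖) x₀ :=
      ((f.continuous.sub f0.continuous).norm).continuousAt
    have h1 : (fun x => ‖f x - f0 x‖) x₀ < ε := by
      simp only
      rw [hf0x0, sub_self, norm_zero]
      exact hε
    have h2 := hc.eventually_lt (continuousAt_const (y := ε)) h1
    filter_upwards [h2] with x hx
    exact hx.le
  refine ⟨m, (hUp x₀ (mem_of_mem_nhds hU)).1, U ∩ {x | ‖f x - f0 x‖ ≤ ε},
    Filter.inter_mem hU hU', ?_, ?_⟩
  · intro hm x hx
    subst hm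
    have h1 := (hUp x hx.1).2.1
    rw [← h1]
    simp
  intro h hh0 hhU
  have hhU1 : ∀ x, x ∉ U → h x = 0 := fun x hx => hhU x (fun h' => hx h'.1)
  -- the elements `h e_ii`
  have esa : ∀ i, ∀ x ∈ U, 0 ≤ e i i x := by
    intro i x hx
    have h1 := (hUp x hx).2.2 i i
    have h2 := star_mul_self_nonneg (e i i x)
    rw [h1.1, h1.2 i i, if_pos rfl] at h2
    exact h2
  have enn : ∀ i x, 0 ≤ hs h (e i i) x := by
    intro i x
    rw [hs_apply]
    by_cases hx : x ∈ U
    · exact smul_nonneg (hh0 x) (esa i x hx)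
    · rw [hhU1 x hx, zero_smul]
  have ecor : ∀ i, Cor H (hs h (e i i)) := fun i => Cor.hs (hcor i i) h
  have emul : ∀ i j, i ≠ j → hs h (e i i) * hs h (e j j) = 0 := by
    intro i j hij
    ext1 x
    show h x • e i i x * h x • e j j x = 0
    by_cases hx : x ∈ U
    · rw [smul_mul_smul_comm, ((hUp x hx).2.2 i i).2 j j, if_neg hij, smul_zero]
    · rw [hhU1 x hx, zero_smul, zero_mul]
  have ecomm : ∀ i j, hs h (e i i) * hs h (e j j) = hs h (e j j) * hs h (e i i) := by
    intro i j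
    by_cases hij : i = j
    · rw [hij]
    · rw [emul i j hij, emul j i (Ne.symm hij)]
  -- all the values are equal
  have eqS : ∀ i j, S H σ (hs h (e i i)) = S H σ (hs h (e j j)) := by
    intro i j
    set r : C(H.X, ℝ) := ⟨fun x => Real.sqrt (h x), Real.continuous_sqrt.comp h.continuous⟩ with hr
    have hrr : ∀ x, r x * r x = h x := fun x => Real.mul_self_sqrt (hh0 x)
    have hr0 : ∀ x, x ∉ U → r x = 0 := by
      intro x hx
      show Real.sqrt (h x) = 0
      rw [hhU1 x hx, Real.sqrt_zero]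
    have hw : Cor H (hs r (e i j)) := Cor.hs (hcor i j) r
    have e1 : hs r (e i j) * star (hs r (e i j)) = hs h (e i i) := by
      ext1 x
      show r x • e i j x * star (r x • e i j x) = h x • e i i x
      by_cases hx : x ∈ U
      · have h1 := (hUp x hx).2.2 i j
        rw [star_smul, h1.1, star_trivial, smul_mul_smul_comm, hrr, h1.2 j i, if_pos rfl]
      · rw [hr0 x hx, hhU1 x hx, zero_smul, zero_smul, zero_mul]
    have e2 : star (hs r (e i j)) * hs r (e i j) = hs h (e j j) := by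
      ext1 x
      show star (r x • e i j x) * r x • e i j x = h x • e j j x
      by_cases hx : x ∈ U
      · have h1 := (hUp x hx).2.2 i j
        have h2 := (hUp x hx).2.2 j i
        rw [star_smul, h1.1, star_trivial, smul_mul_smul_comm, hrr, h2.2 i j, if_pos rfl]
      · rw [hr0 x hx, hhU1 x hx, zero_smul, zero_smul, mul_zero]
    have h3 := S_trace σ hw
    rw [e1, e2] at h3
    exact h3
  -- `∑ S (h e_ii) = S (h p)`
  have sump : ∑ i, S H σ (hs h (e i i)) = S H σ (hs h H.p) := by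
    rw [← S_sum σ Finset.univ (fun i => hs h (e i i)) (fun i _ => ecor i) (fun i _ => enn i)
      (fun i _ j _ => ecomm i j)]
    congr 1
    ext1 x
    rw [ContinuousMap.sum_apply, hs_apply]
    by_cases hx : x ∈ U
    · rw [← (hUp x hx).2.1, Finset.smul_sum]
      rfl
    · rw [hhU1 x hx, zero_smul]
      apply Finset.sum_eq_zero
      intro i _
      rw [hs_apply, hhU1 x hx, zero_smul]
  -- `S (h f0) = ∑ lam_i S (h e_ii)`
  have hf0cor : Cor H f0 := by
    rw [hf0def]
    apply cor_sum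
    intro i _
    unfold Cor
    rw [mul_smul_comm, smul_mul_assoc, hcor]
  have f0nn : ∀ x, 0 ≤ hs h f0 x := by
    intro x
    rw [hs_apply]
    by_cases hx : x ∈ U
    · apply smul_nonneg (hh0 x)
      rw [hf0x]
      exact Finset.sum_nonneg fun i _ => smul_nonneg (hlam i) (esa i x hx)
    · rw [hhU1 x hx, zero_smul]
  have sumf : S H σ (hs h f0) = ∑ i, lam i * S H σ (hs h (e i i)) := by
    have e1 : hs h f0 = ∑ i, lam i • hs h (e i i) := by
      ext1 x
      rw [hs_apply, hf0x, ContinuousMap.sum_apply, Finset.smul_sum]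
      apply Finset.sum_congr rfl
      intro i _
      show h x • lam i • e i i x = lam i • h x • e i i x
      rw [smul_comm]
    rw [e1, S_sum σ Finset.univ (fun i => lam i • hs h (e i i)) (by
        intro i _
        unfold Cor
        rw [mul_smul_comm, smul_mul_assoc, ecor i]) (by
        intro i _ x
        exact smul_nonneg (hlam i) (enn i x)) (by
        intro i _ j _
        rw [smul_mul_smul_comm, smul_mul_smul_comm, ecomm i j, mul_comm (lam i)])]
    apply Finset.sum_congr rfl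
    intro i _
    exact S_smul σ (lam i) (hlam i) (enn i)
  -- the trace
  have htr : (m : ℝ) * ∑ i, lam i * S H σ (hs h (e i i)) = trM (f x₀) * S H σ (hs h H.p) := by
    have hx0 := hUp x₀ (mem_of_mem_nhds hU)
    have tre : ∀ i j, trM (e i i x₀) = trM (e j j x₀) := by
      intro i j
      have h1 := (hx0.2.2 i j).2 j i
      have h2 := (hx0.2.2 j i).2 i j
      rw [if_pos rfl] at h1 h2
      rw [← h1, ← h2, trM_comm]
    have trs : ∑ i, trM (e i i x₀) = m := by
      rw [← trM_sum, hx0.2.1, hx0.1]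
    rw [hfx, trM_sum, ← sump]
    rcases Nat.eq_zero_or_pos m with hm | hm
    · subst hm
      simp
    · set i0 : Fin m := ⟨0, hm⟩
      have hmr : (0 : ℝ) < m := by exact_mod_cast hm
      have tr1 : ∀ i, trM (e i i x₀) = 1 := by
        intro i
        have h1 : ∑ j : Fin m, trM (e j j x₀) = m * trM (e i i x₀) := by
          rw [Finset.sum_congr rfl (fun j _ => tre j i), Finset.sum_const, Finset.card_univ,
            Fintype.card_fin, nsmul_eq_mul]
        rw [trs] at h1
        have h2 : (m : ℝ) * 1 = m * trM (e i i x₀) := by rw [mul_one]; exact h1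
        exact (mul_left_cancel₀ hmr.ne' h2).symm
      have h3 : ∑ i, S H σ (hs h (e i i)) = m * S H σ (hs h (e i0 i0)) := by
        rw [Finset.sum_congr rfl (fun j _ => eqS j i0), Finset.sum_const, Finset.card_univ,
          Fintype.card_fin, nsmul_eq_mul]
      have h4 : ∑ i, lam i * S H σ (hs h (e i i)) = (∑ i, lam i) * S H σ (hs h (e i0 i0)) := by
        rw [Finset.sum_mul]
        apply Finset.sum_congr rfl
        intro i _
        rw [eqS i i0]
      have h5 : ∑ i, trM (lam i • e i i x₀) = ∑ i, lam i := by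
        apply Finset.sum_congr rfl
        intro i _
        rw [trM_smul, tr1 i, mul_one]
      rw [h3, h4, h5]
      ring
  -- comparison
  have hpn : ∀ x, 0 ≤ hs h H.p x := fun x => by
    rw [hs_apply]
    exact smul_nonneg (hh0 x) (p_nonneg x)
  have hfn : ∀ x, 0 ≤ hs h f x := fun x => by
    rw [hs_apply]
    exact smul_nonneg (hh0 x) (hf0 x)
  have key : ∀ x, x ∈ U ∩ {x | ‖f x - f0 x‖ ≤ ε} →
      f x - f0 x ≤ ε • H.p x ∧ f0 x - f x ≤ ε • H.p x := by
    intro x hx
    have hD : IsSelfAdjoint (f x - f0 x) := by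
      apply IsSelfAdjoint.sub (IsSelfAdjoint.of_nonneg (hf0 x))
      rw [hf0x]
      apply IsSelfAdjoint.of_nonneg
      exact Finset.sum_nonneg fun i _ => smul_nonneg (hlam i) (esa i x hx.1)
    have hpx : star (H.p x) = H.p x := (H.proj x).isSelfAdjoint.star_eq
    have hpp : H.p x * H.p x = H.p x := (H.proj x).isIdempotentElem
    have gen : ∀ D : Mt H.N, IsSelfAdjoint D → ‖D‖ ≤ ε → H.p x * D * H.p x = D → D ≤ ε • H.p x := by
      intro D hD hn hp
      have h1 : D ≤ algebraMap ℝ (Mt H.N) ‖D‖ := IsSelfAdjoint.le_algebraMap_norm_self hD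
      have h2 : algebraMap ℝ (Mt H.N) ‖D‖ ≤ algebraMap ℝ (Mt H.N) ε := by
        rw [Algebra.algebraMap_eq_smul_one, Algebra.algebraMap_eq_smul_one]
        exact smul_le_smul_of_nonneg_right hn zero_le_one
      have h3 := star_left_conjugate_le_conjugate (h1.trans h2) (H.p x)
      rw [hpx, hp, Algebra.algebraMap_eq_smul_one, mul_smul_comm, mul_one, smul_mul_assoc,
        hpp] at h3
      exact h3
    have hpD : H.p x * (f x - f0 x) * H.p x = f x - f0 x := by
      rw [mul_sub, sub_mul, hf.leftx, hf.rightx, hf0cor.leftx, hf0cor.rightx]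
    refine ⟨gen _ hD hx.2 hpD, ?_⟩
    apply gen
    · rw [← neg_sub]
      exact hD.neg
    · rw [norm_sub_rev]
      exact hx.2
    · rw [← neg_sub, mul_neg, neg_mul, hpD]
  have hεp : ∀ x, 0 ≤ (ε • hs h H.p) x := fun x => smul_nonneg hε.le (hpn x)
  have hεc : Cor H (ε • hs h H.p) := by
    unfold Cor
    rw [mul_smul_comm, smul_mul_assoc, Cor.hs cor_p h]
  have comm1 : ∀ g : C(H.X, Mt H.N), Cor H g → g * (ε • hs h H.p) = (ε • hs h H.p) * g := by
    intro g hg
    ext1 x
    show g x * ε • h x • H.p x = (ε • h x • H.p x) * g x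
    rw [mul_smul_comm, mul_smul_comm, smul_mul_assoc, smul_mul_assoc, hg.leftx, hg.rightx]
  have up : S H σ (hs h f) ≤ S H σ (hs h f0) + ε * S H σ (hs h H.p) := by
    rw [← S_smul σ ε hε.le hpn, ← S_add σ (Cor.hs hf0cor h) hεc f0nn hεp (comm1 _ (Cor.hs hf0cor h))]
    apply S_mono σ hT hfn
    intro x
    show h x • f x ≤ h x • f0 x + ε • h x • H.p x
    by_cases hx : x ∈ U ∩ {x | ‖f x - f0 x‖ ≤ ε}
    · have h1 := smul_le_smul_of_nonneg_left (key x hx).1 (hh0 x)
      rw [smul_sub, smul_comm (h x) ε] at h1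
      exact sub_le_iff_le_add'.mp h1
    · rw [hhU x hx]
      simp
  have dn : S H σ (hs h f0) ≤ S H σ (hs h f) + ε * S H σ (hs h H.p) := by
    rw [← S_smul σ ε hε.le hpn, ← S_add σ (Cor.hs hf h) hεc hfn hεp (comm1 _ (Cor.hs hf h))]
    apply S_mono σ hT f0nn
    intro x
    show h x • f0 x ≤ h x • f x + ε • h x • H.p x
    by_cases hx : x ∈ U ∩ {x | ‖f x - f0 x‖ ≤ ε}
    · have h1 := smul_le_smul_of_nonneg_left (key x hx).2 (hh0 x)
      rw [smul_sub, smul_comm (h x) ε] at h1
      exact sub_le_iff_le_add'.mp h1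
    · rw [hhU x hx]
      simp
  rw [← htr, ← sumf, ← mul_sub, abs_mul, abs_of_nonneg (Nat.cast_nonneg m)]
  apply mul_le_mul_of_nonneg_left _ (Nat.cast_nonneg m)
  rw [abs_le]
  constructor <;> linarith

theorem local2 (hT : TauMonoP.{u}) (hF : FrameP) (f g : C(H.X, Mt H.N)) (hf : Cor H f)
    (hg : Cor H g) (hf0 : ∀ x, 0 ≤ f x) (hg0 : ∀ x, 0 ≤ g x)
    (htr : ∀ x, trM (f x) = trM (g x)) (x₀ : H.X) (ε : ℝ) (hε : 0 < ε) :
    ∃ U : Set H.X, IsOpen U ∧ x₀ ∈ U ∧
      ∀ h : C(H.X, ℝ), (∀ x, 0 ≤ h x) → (∀ x, x ∉ U → h x = 0) →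
        |S H σ (hs h f) - S H σ (hs h g)| ≤ 2 * ε * S H σ (hs h H.p) := by
  obtain ⟨m, hm, U1, hU1, hz1, h1⟩ := local1 σ hT hF f hf hf0 x₀ ε hε
  obtain ⟨m', hm', U2, hU2, hz2, h2⟩ := local1 σ hT hF g hg hg0 x₀ ε hε
  have hmm : m = m' := by
    have : (m : ℝ) = m' := by rw [← hm, ← hm']
    exact_mod_cast this
  subst hmm
  obtain ⟨U, hUs, hUo, hxU⟩ := mem_nhds_iff.mp (Filter.inter_mem hU1 hU2)
  refine ⟨U, hUo, hxU, ?_⟩
  intro h hh0 hhU
  have a1 := h1 h hh0 (fun x hx => hhU x (fun h' => hx (hUs h').1))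
  have a2 := h2 h hh0 (fun x hx => hhU x (fun h' => hx (hUs h').2))
  have hpn : ∀ x, 0 ≤ hs h H.p x := fun x => by
    rw [hs_apply]
    exact smul_nonneg (hh0 x) (p_nonneg x)
  have hSp := S_nonneg σ hpn
  rcases Nat.eq_zero_or_pos m with h0 | h0
  · have e : ∀ k : C(H.X, Mt H.N), Cor H k → hs h k = 0 := by
      intro k hk
      ext1 x
      rw [hs_apply, ContinuousMap.zero_apply]
      by_cases hx : x ∈ U
      · have h3 := hz1 h0 x (hUs hx).1
        rw [← hk.leftx x, h3, zero_mul, smul_zero]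
      · rw [hhU x hx, zero_smul]
    rw [e f hf, e g hg, sub_self, abs_zero]
    positivity
  · have hmr : (0 : ℝ) < m := by exact_mod_cast h0
    rw [htr x₀] at a1
    rw [abs_le] at a1 a2
    have h3 : |(m : ℝ) * (S H σ (hs h f) - S H σ (hs h g))| ≤
        m * (2 * ε * S H σ (hs h H.p)) := by
      rw [abs_le]
      constructor <;> nlinarith [a1.1, a1.2, a2.1, a2.2]
    rw [abs_mul, abs_of_pos hmr] at h3
    exact le_of_mul_le_mul_left h3 hmr

/-- decomposition by a partition of unity -/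
theorem part {ι : Type} [Fintype ι] (h : ι → C(H.X, ℝ)) (hh0 : ∀ i x, 0 ≤ h i x)
    (hh1 : ∀ x, ∑ i, h i x = 1) (f : C(H.X, Mt H.N)) (hf : Cor H f) (hf0 : ∀ x, 0 ≤ f x) :
    S H σ f = ∑ i, S H σ (hs (h i) f) := by
  rw [← S_sum σ Finset.univ (fun i => hs (h i) f) (fun i _ => Cor.hs hf _) (by
      intro i _ x
      exact smul_nonneg (hh0 i x) (hf0 x)) (by
      intro i _ j _
      ext1 x
      show h i x • f x * h j x • f x = h j x • f x * h i x • f x
      rw [smul_mul_smul_comm, smul_mul_smul_comm, mul_comm (h i x)])]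
  congr 1
  ext1 x
  rw [ContinuousMap.sum_apply]
  show f x = ∑ i, h i x • f x
  rw [← Finset.sum_smul, hh1, one_smul]

theorem qI (hF : FrameP) (hT : TauMonoP.{u}) : QIdP.{u} := by
  intro A _ _ _ σ H f g hf hg hf0 hg0 htr
  haveI : CompactSpace H.X := H.cs
  have hb : ∀ ε : ℝ, 0 < ε → |S H σ f - S H σ g| ≤ 2 * ε := by
    intro ε hε
    choose U hUo hxU hU using fun x₀ => local2 σ hT hF f g hf hg hf0 hg0 htr x₀ ε hε
    obtain ⟨t, ht⟩ := isCompact_univ.elim_finite_subcover U hUo (fun x _ =>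
      Set.mem_iUnion.mpr ⟨x, hxU x⟩)
    obtain ⟨φ, hφ⟩ := PartitionOfUnity.exists_isSubordinate (isClosed_univ (X := H.X))
      (fun i : t => U i) (fun i => hUo i) (by
        intro x hx
        obtain ⟨i, hi, hxi⟩ := Set.mem_iUnion₂.mp (ht hx)
        exact Set.mem_iUnion.mpr ⟨⟨i, hi⟩, hxi⟩)
    have hh0 : ∀ (i : t) x, 0 ≤ φ i x := fun i x => φ.nonneg i x
    have hh1 : ∀ x, ∑ i : t, φ i x = 1 := by
      intro x
      rw [← finsum_eq_sum_of_fintype]
      exact φ.sum_eq_one (Set.mem_univ x)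
    have hv : ∀ (i : t) x, x ∉ U i → φ i x = 0 := by
      intro i x hx
      by_contra hne
      exact hx (hφ i (subset_tsupport _ hne))
    rw [part σ (fun i : t => φ i) hh0 hh1 f hf hf0, part σ (fun i : t => φ i) hh0 hh1 g hg hg0,
      ← Finset.sum_sub_distrib]
    refine (Finset.abs_sum_le_sum_abs _ _).trans ?_
    calc ∑ i : t, |S H σ (hs (φ i) f) - S H σ (hs (φ i) g)|
        ≤ ∑ i : t, 2 * ε * S H σ (hs (φ i) H.p) :=
          Finset.sum_le_sum fun i _ => hU i (φ i) (hh0 i) (hv i)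
      _ = 2 * ε * S H σ H.p := by
          rw [← Finset.mul_sum, ← part σ (fun i : t => φ i) hh0 hh1 H.p cor_p p_nonneg]
      _ ≤ 2 * ε * 1 := by
          apply mul_le_mul_of_nonneg_left (S_p_le σ hT) (by positivity)
      _ = 2 * ε := mul_one _
  have h0 : |S H σ f - S H σ g| ≤ 0 := by
    apply le_of_forall_pos_le_add
    intro ε hε
    have := hb (ε / 2) (by positivity)
    linarith
  have h1 : S H σ f - S H σ g = 0 := abs_eq_zero.mp (le_antisymm h0 (abs_nonneg _))
  exact sub_eq_zero.mp h1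

end QI94

theorem qI (hF : FrameP) (hT : TauMonoP.{u}) : QIdP.{u} := QI94.qI hF hT

end RC
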